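import Pool.Agent.Helper8.AL.W2

/-! Packages W1 and W3 of the abstract local linear law: Phragmén–Lindelöf and convexity in a long rectangle. -/

set_option autoImplicit false
set_option maxHeartbeats 1000000

open Complex Filter Topology Set Metric

namespace Pool.Agent.Helper8.AL

open Pool.Agent.Helper75.AL

/-- the maximum principle in a rectangle -/
lemma rect_max {f : ℂ → ℂ} (hf : Differentiable ℂ f) {p q b C : ℝ} (hpq : p < q) (hb : 0 < b)
    (h0 : ∀ w : ℂ, p ≤ w.re → w.re ≤ q → w.im = 0 → ‖f w‖ ≤ C)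
    (h1 : ∀ w : ℂ, p ≤ w.re → w.re ≤ q → w.im = b → ‖f w‖ ≤ C)
    (h2 : ∀ w : ℂ, 0 ≤ w.im → w.im ≤ b → (w.re = p ∨ w.re = q) → ‖f w‖ ≤ C)
    {w : ℂ} (hw1 : p ≤ w.re) (hw2 : w.re ≤ q) (hw3 : 0 ≤ w.im) (hw4 : w.im ≤ b) : ‖f w‖ ≤ C := by
  have hU : Bornology.IsBounded (Ioo p q ×ℂ Ioo 0 b) := (Metric.isBounded_Ioo _ _).reProdIm (Metric.isBounded_Ioo _ _)
  refine Complex.norm_le_of_forall_mem_frontier_norm_le hU hf.diffContOnCl ?_ ?_
  · intro z hz
    rw [Complex.frontier_reProdIm, closure_Ioo hpq.ne, closure_Ioo hb.ne, frontier_Ioo hpq, frontier_Ioo hb] at hz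
    rcases hz with hz | hz
    · rcases hz.2 with h | h
      · exact h0 z hz.1.1 hz.1.2 h
      · exact h1 z hz.1.1 hz.1.2 h
    · exact h2 z hz.2.1 hz.2.2 hz.1
  · rw [Complex.closure_reProdIm, closure_Ioo hpq.ne, closure_Ioo hb.ne]
    exact ⟨⟨hw1, hw2⟩, ⟨hw3, hw4⟩⟩

/-- Phragmén–Lindelöf in a long rectangle -/
lemma phl {G : ℕ → ℂ → ℂ} {L : ℕ → ℝ} {a b c : ℝ} (hAG : AG G L) (hb : 0 < b) (hb3 : b ≤ 3)
    (hc : ∀ v : ℝ, 0 ≤ v → v ≤ b → v / 2 ≤ a + c * v + 1 / 2)
    (hline : ALine a G L)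
    (htop : ∀ η > 0, ∀ R : ℝ, ∀ᶠ j in atTop, ∀ w : ℂ, |w.re| ≤ R → w.im = b →
      ‖G j w‖ ≤ Real.exp (L j * (a + c * b + η))) :
    ∀ η > 0, ∀ R : ℝ, ∀ᶠ j in atTop, ∀ w : ℂ, |w.re| ≤ R → 0 ≤ w.im → w.im ≤ b →
      ‖G j w‖ ≤ Real.exp (L j * (a + c * w.im + η)) := by
  intro η hη R
  obtain ⟨δ, hδ⟩ : ∃ δ : ℝ, δ = η / 18 := ⟨_, rfl⟩
  have hδ0 : 0 < δ := by rw [hδ]; positivity
  obtain ⟨T, hT⟩ : ∃ T : ℝ, T = 3 + 2 / δ := ⟨_, rfl⟩
  have hT0 : 3 < T := by rw [hT]; have : 0 < 2 / δ := by positivity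
                         linarith
  have hT2 : 2 ≤ δ * (T ^ 2 - 9) := by
    have e : δ * (T ^ 2 - 9) = 12 + 4 / δ := by rw [hT]; field_simp; ring
    have : 0 < 4 / δ := by positivity
    linarith
  obtain ⟨Q, hQ⟩ : ∃ Q : ℝ, Q = |R| + T := ⟨_, rfl⟩
  have hR0 := abs_nonneg R
  have hQ0 : 0 < Q := by linarith
  obtain ⟨η1, hη1⟩ : ∃ η1 : ℝ, η1 = 1 / (2 * (1 + (Q + 3) ^ 2)) := ⟨_, rfl⟩
  have hη10 : 0 < η1 := by rw [hη1]; positivity
  have hη11 : η1 * (1 + (Q + 3) ^ 2) = 1 / 2 := by rw [hη1]; field_simp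
  filter_upwards [hAG.ok η1 hη10 Q, hline (η / 2) (by positivity) Q, htop (η / 2) (by positivity) Q,
    hAG.lim.eventually_ge_atTop 0] with j hj hl ht hL w hw1 hw2 hw3
  have hw1' := abs_le.1 (hw1.trans (le_abs_self R))
  obtain ⟨F, hF⟩ : ∃ F : ℂ → ℂ, F = fun z => G j z * cexp (I * (((L j * c : ℝ) : ℂ) * z)) *
      cexp (((-(L j * δ) : ℝ) : ℂ) * (z - w.re) ^ 2) := ⟨_, rfl⟩
  have hnorm : ∀ z : ℂ, ‖F z‖ = ‖G j z‖ * Real.exp (-(L j * c * z.im)) *
      Real.exp (-(L j * δ) * ((z.re - w.re) ^ 2 - z.im ^ 2)) := by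
    intro z
    rw [hF]
    simp only [norm_mul, Complex.norm_exp]
    congr 2
    · congr 1
      rw [Complex.I_mul_re, Complex.im_ofReal_mul]
    · rw [Complex.re_ofReal_mul]
      congr 1
      rw [pow_two, Complex.mul_re]
      simp
      ring
  have hd : Differentiable ℂ F := by
    rw [hF]
    have h1 := hAG.ent j
    exact (h1.mul (by fun_prop)).mul (by fun_prop)
  have key : ‖F w‖ ≤ Real.exp (L j * (a + η)) := by
    refine rect_max hd (p := w.re - T) (q := w.re + T) (b := b) (by linarith) hb ?_ ?_ ?_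
      (by linarith) (by linarith) hw2 hw3
    · intro z h1 h2 h3
      have h4 : |z.re| ≤ Q := by rw [abs_le, hQ]; constructor <;> linarith
      have h5 : ((z.re : ℝ) : ℂ) = z := by
        apply Complex.ext
        · simp
        · simp [h3]
      have h6 := hl z.re h4
      rw [h5] at h6
      rw [hnorm, h3]
      calc ‖G j z‖ * Real.exp (-(L j * c * 0)) * Real.exp (-(L j * δ) * ((z.re - w.re) ^ 2 - 0 ^ 2)) ≤
          Real.exp (L j * (a + η / 2)) * 1 * 1 := by
            gcongr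
            · simp
            · rw [Real.exp_le_one_iff]
              have : 0 ≤ (L j * δ) * (z.re - w.re) ^ 2 := by positivity
              linarith
        _ ≤ _ := by
            rw [mul_one, mul_one]
            gcongr
            linarith
    · intro z h1 h2 h3
      have h4 : |z.re| ≤ Q := by rw [abs_le, hQ]; constructor <;> linarith
      have h6 := ht z h4 h3
      rw [hnorm, h3]
      calc ‖G j z‖ * Real.exp (-(L j * c * b)) * Real.exp (-(L j * δ) * ((z.re - w.re) ^ 2 - b ^ 2)) ≤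
          Real.exp (L j * (a + c * b + η / 2)) * Real.exp (-(L j * c * b)) * Real.exp (L j * (η / 2)) := by
            refine mul_le_mul (by gcongr) (Real.exp_le_exp.2 ?_) (by positivity) (by positivity)
            have e1 : 0 ≤ (L j * δ) * (z.re - w.re) ^ 2 := by positivity
            have e2 : δ * b ^ 2 ≤ η / 2 := by
              rw [hδ]
              have : b ^ 2 ≤ 9 := by nlinarith
              nlinarith
            have e3 : L j * (δ * b ^ 2) ≤ L j * (η / 2) := by gcongr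
            linarith
        _ = Real.exp (L j * (a + η)) := by
            rw [← Real.exp_add, ← Real.exp_add]
            congr 1
            ring
    · intro z h1 h2 h3
      have h5 : (z.re - w.re) ^ 2 = T ^ 2 := by
        rcases h3 with h | h <;> rw [h] <;> ring
      have h4 : |z.re| ≤ Q := by
        rw [abs_le, hQ]
        rcases h3 with h | h <;> rw [h] <;> constructor <;> linarith
      have h6 : ‖z‖ ≤ Q + 3 := by
        refine (Complex.norm_le_abs_re_add_abs_im _).trans ?_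
        rw [abs_of_nonneg h1]
        linarith
      have h7 : ‖z‖ ^ 2 ≤ (Q + 3) ^ 2 := pow_le_pow_left₀ (norm_nonneg _) h6 2
      have h8 : η1 * (1 + ‖z‖ ^ 2) ≤ 1 / 2 := by
        rw [← hη11]
        gcongr
      have h9 := hj.grow z
      rw [abs_of_nonneg h1] at h9
      have h10 := hc z.im h1 h2
      have h11 : z.im ^ 2 ≤ 9 := by nlinarith
      rw [hnorm, h5]
      calc ‖G j z‖ * Real.exp (-(L j * c * z.im)) * Real.exp (-(L j * δ) * (T ^ 2 - z.im ^ 2)) ≤
          Real.exp (L j * (1 / 2 + z.im / 2 + η1 * (1 + ‖z‖ ^ 2))) * Real.exp (-(L j * c * z.im)) *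
            Real.exp (-(L j * δ) * (T ^ 2 - z.im ^ 2)) := by gcongr
        _ = Real.exp (L j * (1 / 2 + z.im / 2 + η1 * (1 + ‖z‖ ^ 2) - c * z.im - δ * (T ^ 2 - z.im ^ 2))) := by
            rw [← Real.exp_add, ← Real.exp_add]
            congr 1
            ring
        _ ≤ _ := by
            gcongr
            have e1 : δ * (T ^ 2 - 9) ≤ δ * (T ^ 2 - z.im ^ 2) := by gcongr
            linarith
  have h1 : Real.exp (-(L j * δ) * ((w.re - w.re) ^ 2 - w.im ^ 2)) ≥ 1 := by
    rw [ge_iff_le]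
    apply Real.one_le_exp
    have : 0 ≤ (L j * δ) * w.im ^ 2 := by positivity
    rw [sub_self]
    linarith
  rw [hnorm] at key
  have h2 : ‖G j w‖ * Real.exp (-(L j * c * w.im)) ≤ Real.exp (L j * (a + η)) := by
    refine le_trans ?_ key
    exact le_mul_of_one_le_right (by positivity) h1
  have e0 : Real.exp (-(L j * c * w.im)) * Real.exp (L j * c * w.im) = 1 := by
    rw [← Real.exp_add]; simp
  calc ‖G j w‖ = ‖G j w‖ * Real.exp (-(L j * c * w.im)) * Real.exp (L j * c * w.im) := by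
        rw [mul_assoc, e0, mul_one]
    _ ≤ Real.exp (L j * (a + η)) * Real.exp (L j * c * w.im) := by gcongr
    _ = Real.exp (L j * (a + c * w.im + η)) := by
        rw [← Real.exp_add]; congr 1; ring

/-- **W1** -/
theorem w1 : St_W1 := by
  intro G L a hAG ha ha2 hl η hη R
  have h1 := phl (a := a) (b := 1) (c := 1 / 2) hAG one_pos (by norm_num)
    (fun v hv _ => by linarith) hl ?_ η hη R
  · filter_upwards [h1, hAG.ok (min η (1 / 4)) (by positivity) R, hAG.lim.eventually_ge_atTop 0] with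
      j hj hok hL w hw1 hw2 hw3
    rcases le_or_gt w.im 1 with h | h
    · refine (hj w hw1 hw2 h).trans (Real.exp_le_exp.2 ?_)
      gcongr
      linarith
    · have h2 : min η (1 / 4) ≤ 1 / 4 := min_le_right _ _
      have h3 : min η (1 / 4) ≤ η := min_le_left _ _
      refine (hok.side w hw1 (by linarith) hw3).2.trans (Real.exp_le_exp.2 ?_)
      gcongr
      linarith
  · intro η' hη' R'
    filter_upwards [hAG.ok (min η' (1 / 4)) (by positivity) R', hAG.lim.eventually_ge_atTop 0] with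
      j hok hL w hw1 hw2
    have h2 : min η' (1 / 4) ≤ 1 / 4 := min_le_right _ _
    have h3 : min η' (1 / 4) ≤ η' := min_le_left _ _
    refine (hok.side w hw1 (by linarith) (by linarith)).2.trans (Real.exp_le_exp.2 ?_)
    gcongr
    rw [hw2]
    linarith

/-- **W3** -/
theorem w3 : St_W3 := by
  intro G L a b hAG ha ha2 hb hb2 hl hN η hη R
  obtain ⟨δ, hδ⟩ : ∃ δ : ℝ, δ = min 1 (η * b / 2) := ⟨_, rfl⟩
  have hδ0 : 0 < δ := by rw [hδ]; positivity
  have hδ1 : δ ≤ 1 := by rw [hδ]; exact min_le_left _ _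
  have hδ2 : δ ≤ η * b / 2 := by rw [hδ]; exact min_le_right _ _
  have hb1 : 0 < b + δ := by linarith
  have h1 := phl (a := a) (b := b + δ) (c := 1 / 2 - a / (b + δ)) hAG hb1 (by linarith) ?_ hl ?_
    (η / 2) (by positivity) R
  · filter_upwards [h1, hAG.lim.eventually_ge_atTop 0] with j hj hL w hw1 hw2 hw3
    refine (hj w hw1 hw2 (by linarith)).trans (Real.exp_le_exp.2 ?_)
    refine mul_le_mul_of_nonneg_left ?_ hL
    -- `a w.im (1/b - 1/(b+δ)) ≤ η / 2`
    have e1 : w.im / b - w.im / (b + δ) ≤ η := by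
      have e2 : w.im / b - w.im / (b + δ) = w.im / b * (δ / (b + δ)) := by field_simp; ring
      have e3 : w.im / b ≤ 1 := (div_le_one hb).2 hw3
      have e4 : 0 ≤ w.im / b := by positivity
      have e5 : δ / (b + δ) ≤ η := by
        rw [div_le_iff₀ hb1]
        nlinarith
      have e6 : 0 ≤ δ / (b + δ) := by positivity
      rw [e2]
      nlinarith
    have e7 : a * (w.im / b - w.im / (b + δ)) ≤ 1 / 2 * η := by
      rcases le_or_gt 0 (w.im / b - w.im / (b + δ)) with h | h
      · nlinarith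
      · nlinarith
    have e8 : a / (b + δ) * w.im = a * (w.im / (b + δ)) := by ring
    have e9 : a * (1 - w.im / b) = a - a * (w.im / b) := by ring
    linarith
  · intro v hv hv2
    have e1 : v / (b + δ) ≤ 1 := (div_le_one hb1).2 hv2
    have e2 : a / (b + δ) * v = a * (v / (b + δ)) := by ring
    nlinarith
  · intro η' hη' R'
    filter_upwards [w2 G L b hAG hb.le hN (min η' δ) (by positivity) R', hAG.lim.eventually_ge_atTop 0] with
      j hok hL w hw1 hw2
    have h2 : min η' δ ≤ δ := min_le_right _ _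
    have h3 : min η' δ ≤ η' := min_le_left _ _
    refine (hok w hw1 (by linarith) (by linarith)).2.trans (Real.exp_le_exp.2 ?_)
    gcongr
    have e1 : a / (b + δ) * (b + δ) = a := div_mul_cancel₀ _ hb1.ne'
    rw [hw2]
    linarith

end Pool.Agent.Helper8.AL
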