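import Pool.Agent.Helper75.AL.Sts
import Pool.Agent.Helper87.HF.Abs1

/-! Package W2 of the abstract local linear law: two-sided bounds above the zeros. -/

set_option autoImplicit false
set_option maxHeartbeats 1000000

open Complex Filter Topology Set Metric

namespace Pool.Agent.Helper8.AL

open Pool.Agent.Helper75.AL
open Pool.Agent.Helper87.HF (exists_log_ball three_circle)

/-- Logarithms of zero-free functions of size `e^{O(L)}` which are small at one place. -/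
lemma loc2 (A r R δ η : ℝ) (hA : 0 < A) (hr : 0 < r) (hδ : 0 < δ) (hrR : r < R - δ)
    (hη : 0 < η) :
    ∃ η0 : ℝ, 0 < η0 ∧ ∃ L0 : ℝ, ∀ L : ℝ, L0 ≤ L → ∀ h : ℂ → ℂ, DifferentiableOn ℂ h (ball 0 R) →
      (∀ z ∈ ball (0 : ℂ) R, h z ≠ 0) → (∀ z ∈ ball (0 : ℂ) R, ‖h z‖ ≤ Real.exp (A * L)) →
      (∀ z ∈ ball (0 : ℂ) r, Real.exp (-(η0 * L)) ≤ ‖h z‖ ∧ ‖h z‖ ≤ Real.exp (η0 * L)) →
        ∀ z : ℂ, ‖z‖ ≤ R - δ → Real.exp (-(η * L)) ≤ ‖h z‖ ∧ ‖h z‖ ≤ Real.exp (η * L) := by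
  have hR0 : 0 < R := by linarith
  -- bounds from Borel-Caratheodory
  set C1 : ℝ := 2 * A * R / (δ / 2) + (1 + 4) * (2 * R) / (δ / 2) with hC1
  have hC10 : 0 < C1 := by positivity
  set ρ := R - δ with hρ
  set R2 := R - δ / 2 with hR2
  have hR20 : 0 < R2 := by linarith
  have hθ : ρ / R2 < 1 := (div_lt_one hR20).2 (by linarith)
  have hρ0 : 0 < ρ := by linarith
  have hθ0 : 0 ≤ ρ / R2 := by positivity
  have h1θ : 0 < 1 - ρ / R2 := by linarith
  obtain ⟨N, hN⟩ : ∃ N : ℕ, C1 * ((ρ / R2) ^ N / (1 - ρ / R2)) ≤ η / 2 := by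
    have h1 : Tendsto (fun N : ℕ => C1 * ((ρ / R2) ^ N / (1 - ρ / R2))) atTop
        (𝓝 (C1 * (0 / (1 - ρ / R2)))) :=
      ((tendsto_pow_atTop_nhds_zero_of_lt_one hθ0 hθ).div_const _).const_mul _
    rw [zero_div, mul_zero] at h1
    exact (h1.eventually (ge_mem_nhds (show (0 : ℝ) < η / 2 by linarith))).exists
  obtain ⟨K, hK⟩ : ∃ K : ℝ, K = N * (ρ / (r / 2)) ^ N := ⟨_, rfl⟩
  have hK0 : 0 ≤ K := by rw [hK]; positivity
  -- the small scale: on the small ball `‖q‖ ≤ (2 η0 L) * 2 + (η0 L + 4) * 4`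
  obtain ⟨η0, hη0⟩ : ∃ η0 : ℝ, η0 = min 1 (η / (4 * (16 * (K + 1)))) := ⟨_, rfl⟩
  have hη00 : 0 < η0 := by rw [hη0]; positivity
  have hη01 : η0 ≤ 1 := by rw [hη0]; exact min_le_left _ _
  have hη02 : η0 * (16 * (K + 1)) ≤ η / 4 := by
    have h1 : η0 ≤ η / (4 * (16 * (K + 1))) := by rw [hη0]; exact min_le_right _ _
    rw [le_div_iff₀ (by positivity)] at h1
    linarith
  refine ⟨η0, hη00, max 1 (K * 64 / (η / 4)), ?_⟩
  intro L hL h hd hne hub hlb
  have hL1 : 1 ≤ L := (le_max_left _ _).trans hL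
  have hL2 : K * 64 ≤ η / 4 * L := by
    have := (le_max_right 1 _).trans hL
    rw [div_le_iff₀ (by linarith)] at this
    linarith
  obtain ⟨q, hq, hqe, hq0⟩ := exists_log_ball hR0 hd hne
  have hre : ∀ z ∈ ball (0 : ℂ) R, Real.exp (q z).re = ‖h z‖ := by
    intro z hz
    rw [← hqe z hz, Complex.norm_exp]
  have hηL : 0 < η0 * L := by positivity
  have n0 : ‖q 0‖ ≤ η0 * L + 4 := by
    have h00 : (0 : ℂ) ∈ ball (0 : ℂ) r := mem_ball_self hr
    have h1 := hlb 0 h00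
    rw [← hre 0 (mem_ball_self hR0), Real.exp_le_exp, Real.exp_le_exp] at h1
    have h2 : |(q 0).re| ≤ η0 * L := abs_le.2 h1
    have h3 := Complex.norm_le_abs_re_add_abs_im (q 0)
    have h4 := Real.pi_le_four
    linarith
  have n1 : ‖q 0‖ ≤ (1 + 4) * L := by nlinarith
  have hAL : 0 < A * L := by positivity
  have big : ∀ z : ℂ, ‖z‖ ≤ R2 → ‖q z‖ ≤ C1 * L := by
    intro z hz
    have hzR : ‖z‖ < R := by linarith
    have h1 := borelCaratheodory (z := z) hAL hq (fun w hw => by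
      rw [mem_ofPred_eq]
      have := hub w hw
      rw [← hre w hw, Real.exp_le_exp] at this
      exact this) hR0 (by rw [mem_ball_zero_iff]; exact hzR)
    have hden : δ / 2 ≤ R - ‖z‖ := by linarith
    have hδ2 : 0 < δ / 2 := by linarith
    calc ‖q z‖ ≤ 2 * (A * L) * ‖z‖ / (R - ‖z‖) + ‖q 0‖ * (R + ‖z‖) / (R - ‖z‖) := h1
      _ ≤ 2 * (A * L) * R / (δ / 2) + ((1 + 4) * L) * (2 * R) / (δ / 2) := by
          gcongr
          linarith
      _ = C1 * L := by rw [hC1]; ring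
  have small : ∀ z : ℂ, ‖z‖ ≤ r / 2 → ‖q z‖ ≤ 8 * (η0 * L) + 16 := by
    intro z hz
    have h1 := borelCaratheodory (z := z) hηL (hq.mono (ball_subset_ball (by linarith : r ≤ R)))
      (fun w hw => by
      rw [mem_ofPred_eq]
      have := (hlb w hw).2
      rw [← hre w (ball_subset_ball (by linarith) hw), Real.exp_le_exp] at this
      exact this) hr (by rw [mem_ball_zero_iff]; linarith)
    have hden : r / 2 ≤ r - ‖z‖ := by linarith
    calc ‖q z‖ ≤ 2 * (η0 * L) * ‖z‖ / (r - ‖z‖) + ‖q 0‖ * (r + ‖z‖) / (r - ‖z‖) := h1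
      _ ≤ 2 * (η0 * L) * r / (r / 2) + (η0 * L + 4) * (2 * r) / (r / 2) := by
          gcongr
          · linarith
          · linarith
      _ = 8 * (η0 * L) + 16 := by field_simp; ring
  have key : ∀ z : ℂ, ‖z‖ ≤ R - δ → ‖q z‖ ≤ η * L := by
    intro z hz
    have h3 := three_circle (R₁ := R) (R := R2) (r := r / 2) (ρ := ρ) (M := C1 * L)
      (m := 8 * (η0 * L) + 16)
      (by linarith) (by linarith) (by linarith) (by linarith) hq big small N z hz
    calc ‖q z‖ ≤ N * (8 * (η0 * L) + 16) * (ρ / (r / 2)) ^ N + C1 * L * ((ρ / R2) ^ N / (1 - ρ / R2)) := h3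
      _ = K * (8 * η0) * L + K * 16 + L * (C1 * ((ρ / R2) ^ N / (1 - ρ / R2))) := by rw [hK]; ring
      _ ≤ η / 4 * L + η / 4 * L + L * (η / 2) := by
          have e1 : K * (8 * η0) ≤ η / 4 := by nlinarith
          have e2 : K * (8 * η0) * L ≤ η / 4 * L := by gcongr
          have e3 : L * (C1 * ((ρ / R2) ^ N / (1 - ρ / R2))) ≤ L * (η / 2) := by gcongr
          linarith
      _ = η * L := by ring
  intro z hz
  have h1 := key z hz
  have hzR : z ∈ ball (0 : ℂ) R := by rw [mem_ball_zero_iff]; linarith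
  have h2 := abs_le.1 ((Complex.abs_re_le_norm (q z)).trans h1)
  rw [← hre z hzR, Real.exp_le_exp, Real.exp_le_exp]
  exact ⟨by linarith, h2.2⟩

/-- the bounds at one place, for small `η` -/
lemma w2_small (G : ℕ → ℂ → ℂ) (L : ℕ → ℝ) (b : ℝ) (hAG : AG G L) (hb : 0 ≤ b) (hN : ANoZ b G)
    (η : ℝ) (hη : 0 < η) (hη4 : η ≤ 1 / 4) (R : ℝ) : ∀ᶠ j in atTop, ∀ w : ℂ, |w.re| ≤ R → b + η ≤ w.im →
      w.im ≤ 9 → Real.exp (L j * (w.im / 2 - η)) ≤ ‖G j w‖ ∧ ‖G j w‖ ≤ Real.exp (L j * (w.im / 2 + η)) := by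
  rcases le_or_gt (1 / 2) b with hb1 | hb1
  · filter_upwards [hAG.ok η hη R] with j hj w hw1 hw2 hw3
    exact hj.side w hw1 (by linarith) (by linarith)
  -- discs with the centre `u + 5 i`
  obtain ⟨δ, hδ⟩ : ∃ δ : ℝ, δ = min (η / 4) (1 / 8) := ⟨_, rfl⟩
  have hδ0 : 0 < δ := by rw [hδ]; positivity
  have hδ1 : δ ≤ η / 4 := by rw [hδ]; exact min_le_left _ _
  have hδ2 : δ ≤ 1 / 8 := by rw [hδ]; exact min_le_right _ _
  obtain ⟨ρ, hρ⟩ : ∃ ρ : ℝ, ρ = 5 - b - δ := ⟨_, rfl⟩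
  have hρ1 : 4 < ρ := by rw [hρ]; linarith
  obtain ⟨η0, hη0, L0, hL0⟩ := loc2 1 2 ρ δ η one_pos (by norm_num) hδ0 (by linarith) hη
  obtain ⟨η1, hη1⟩ : ∃ η1 : ℝ, η1 = min (min η0 (1 / 4)) (1 / (2 * (1 + (|R| + 15) ^ 2))) := ⟨_, rfl⟩
  have hη10 : 0 < η1 := by rw [hη1]; positivity
  have hη11 : η1 ≤ η0 := by rw [hη1]; exact (min_le_left _ _).trans (min_le_left _ _)
  have hη12 : η1 ≤ 1 / 4 := by rw [hη1]; exact (min_le_left _ _).trans (min_le_right _ _)
  have hη13 : η1 * (1 + (|R| + 15) ^ 2) ≤ 1 / 2 := by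
    have h1 : η1 ≤ 1 / (2 * (1 + (|R| + 15) ^ 2)) := by rw [hη1]; exact min_le_right _ _
    rw [le_div_iff₀ (by positivity)] at h1
    linarith
  have hR0 := abs_nonneg R
  filter_upwards [hAG.ok η1 hη10 (|R| + 5), hN δ hδ0 (|R| + 5), hAG.lim.eventually_ge_atTop L0,
    hAG.lim.eventually_ge_atTop 0, hAG.ok η hη R] with j hj hNj hLj hLj0 hjη w hw1 hw2 hw3
  rcases le_or_gt (1 / 2 + η) w.im with hc | hc
  · exact hjη.side w hw1 hc (by linarith)
  -- the function on the disc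
  obtain ⟨c, hcdef⟩ : ∃ c : ℂ, c = (w.re : ℂ) + 5 * I := ⟨_, rfl⟩
  have hcre : c.re = w.re := by rw [hcdef]; simp
  have hcim : c.im = 5 := by rw [hcdef]; simp
  have hwR : |w.re| ≤ |R| := hw1.trans (le_abs_self R)
  have hw1' := abs_le.1 hwR
  have geo : ∀ z : ℂ, |(c + z).re| ≤ |R| + ‖z‖ ∧ 5 - ‖z‖ ≤ (c + z).im ∧ (c + z).im ≤ 5 + ‖z‖ := by
    intro z
    have h1 := abs_le.1 (Complex.abs_re_le_norm z)
    have h2 := abs_le.1 (Complex.abs_im_le_norm z)
    rw [add_re, add_im, hcre, hcim]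
    refine ⟨abs_le.2 ⟨?_, ?_⟩, ?_, ?_⟩ <;> linarith
  obtain ⟨h, hh⟩ : ∃ h : ℂ → ℂ, h = fun z => G j (c + z) * cexp (I * (L j * (c + z) / 2)) := ⟨_, rfl⟩
  have hnorm : ∀ z : ℂ, ‖h z‖ = ‖G j (c + z)‖ * Real.exp (-(L j * (c + z).im / 2)) := by
    intro z
    rw [hh]
    simp only [norm_mul, Complex.norm_exp]
    congr 2
    have e : (I * ((L j : ℂ) * (c + z) / 2)) = I * (((L j / 2 : ℝ) : ℂ) * (c + z)) := by push_cast; ring
    rw [e, Complex.I_mul_re, Complex.im_ofReal_mul]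
    ring
  have hd : DifferentiableOn ℂ h (ball 0 ρ) := by
    rw [hh]
    have h1 := hAG.ent j
    have h2 : Differentiable ℂ (fun z => G j (c + z)) := h1.comp (by fun_prop)
    exact (h2.mul (by fun_prop)).differentiableOn
  have hpos : ∀ p : ℂ, |p.re| ≤ |R| + 5 → b + δ ≤ p.im → p.im ≤ 10 → G j p ≠ 0 := by
    intro p h1 h2 h3
    rcases le_or_gt p.im 1 with h4 | h4
    · exact hNj p h1 h2 h4
    · have h5 := (hj.side p h1 (by linarith) h3).1
      intro h6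
      rw [h6, norm_zero] at h5
      exact absurd h5 (not_le.2 (Real.exp_pos _))
  have hρ5 : ρ ≤ 5 := by rw [hρ]; linarith
  have hne : ∀ z ∈ ball (0 : ℂ) ρ, h z ≠ 0 := by
    intro z hz
    rw [mem_ball_zero_iff] at hz
    obtain ⟨g1, g2, g3⟩ := geo z
    rw [hh]
    refine mul_ne_zero (hpos _ (by linarith) ?_ (by linarith)) (Complex.exp_ne_zero _)
    rw [hρ] at hz
    linarith
  have hub : ∀ z ∈ ball (0 : ℂ) ρ, ‖h z‖ ≤ Real.exp (1 * L j) := by
    intro z hz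
    rw [mem_ball_zero_iff] at hz
    obtain ⟨g1, g2, g3⟩ := geo z
    have g4 : 0 ≤ (c + z).im := by linarith
    have g5 : ‖c + z‖ ≤ |R| + 15 := by
      refine (Complex.norm_le_abs_re_add_abs_im _).trans ?_
      rw [abs_of_nonneg g4]
      linarith
    have g6 : ‖c + z‖ ^ 2 ≤ (|R| + 15) ^ 2 := pow_le_pow_left₀ (norm_nonneg _) g5 2
    have g7 : η1 * (1 + ‖c + z‖ ^ 2) ≤ 1 / 2 := by
      refine le_trans ?_ hη13
      gcongr
    have h1 := hj.grow (c + z)
    rw [abs_of_nonneg g4] at h1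
    rw [hnorm]
    calc ‖G j (c + z)‖ * Real.exp (-(L j * (c + z).im / 2)) ≤
        Real.exp (L j * (1 / 2 + (c + z).im / 2 + η1 * (1 + ‖c + z‖ ^ 2))) *
          Real.exp (-(L j * (c + z).im / 2)) := by gcongr
      _ = Real.exp (L j * (1 / 2 + η1 * (1 + ‖c + z‖ ^ 2))) := by
          rw [← Real.exp_add]; congr 1; ring
      _ ≤ Real.exp (1 * L j) := by
          rw [Real.exp_le_exp, one_mul]
          nlinarith
  have hsm : ∀ z ∈ ball (0 : ℂ) 2, Real.exp (-(η0 * L j)) ≤ ‖h z‖ ∧ ‖h z‖ ≤ Real.exp (η0 * L j) := by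
    intro z hz
    rw [mem_ball_zero_iff] at hz
    obtain ⟨g1, g2, g3⟩ := geo z
    obtain ⟨k1, k2⟩ := hj.side (c + z) (by linarith) (by linarith) (by linarith)
    rw [hnorm]
    have hηL : η1 * L j ≤ η0 * L j := by gcongr
    constructor
    · calc Real.exp (-(η0 * L j)) ≤ Real.exp (L j * ((c + z).im / 2 - η1)) *
          Real.exp (-(L j * (c + z).im / 2)) := by
            rw [← Real.exp_add, Real.exp_le_exp]
            linarith
        _ ≤ _ := by gcongr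
    · calc ‖G j (c + z)‖ * Real.exp (-(L j * (c + z).im / 2)) ≤ Real.exp (L j * ((c + z).im / 2 + η1)) *
          Real.exp (-(L j * (c + z).im / 2)) := by gcongr
        _ ≤ Real.exp (η0 * L j) := by
            rw [← Real.exp_add, Real.exp_le_exp]
            linarith
  have hz : ‖w - c‖ ≤ ρ - δ := by
    have e : w - c = ((w.im - 5 : ℝ) : ℂ) * I := by
      apply Complex.ext
      · simp [hcre]
      · simp [hcim]
    rw [e, norm_mul, Complex.norm_I, mul_one, Complex.norm_real, Real.norm_eq_abs, abs_le]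
    constructor
    · rw [hρ]; linarith
    · linarith
  have hfin := hL0 (L j) hLj h hd hne hub hsm (w - c) hz
  rw [hnorm, add_sub_cancel] at hfin
  obtain ⟨f1, f2⟩ := hfin
  have hE : 0 < Real.exp (L j * w.im / 2) := Real.exp_pos _
  have e0 : Real.exp (-(L j * w.im / 2)) * Real.exp (L j * w.im / 2) = 1 := by
    rw [← Real.exp_add]; simp
  constructor
  · calc Real.exp (L j * (w.im / 2 - η)) = Real.exp (-(η * L j)) * Real.exp (L j * w.im / 2) := by
          rw [← Real.exp_add]; congr 1; ring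
      _ ≤ ‖G j w‖ * Real.exp (-(L j * w.im / 2)) * Real.exp (L j * w.im / 2) := by gcongr
      _ = ‖G j w‖ := by rw [mul_assoc, e0, mul_one]
  · calc ‖G j w‖ = ‖G j w‖ * Real.exp (-(L j * w.im / 2)) * Real.exp (L j * w.im / 2) := by
          rw [mul_assoc, e0, mul_one]
      _ ≤ Real.exp (η * L j) * Real.exp (L j * w.im / 2) := by gcongr
      _ = Real.exp (L j * (w.im / 2 + η)) := by
          rw [← Real.exp_add]; congr 1; ring

/-- **W2** -/
theorem w2 : St_W2 := by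
  intro G L b hAG hb hN η hη R
  have h1 : min η (1 / 4) ≤ η := min_le_left _ _
  filter_upwards [w2_small G L b hAG hb hN (min η (1 / 4)) (by positivity) (min_le_right _ _) R,
    hAG.lim.eventually_ge_atTop 0] with j hj hL w hw1 hw2 hw3
  obtain ⟨k1, k2⟩ := hj w hw1 (by linarith) hw3
  constructor
  · refine le_trans (Real.exp_le_exp.2 ?_) k1
    gcongr
  · refine k2.trans (Real.exp_le_exp.2 ?_)
    gcongr

end Pool.Agent.Helper8.AL
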